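import Pool.Agent.Y316.EV.Stm
set_option autoImplicit false
namespace Pool.Agent.Y688.EV
open MeasureTheory Set Filter Topology Pool.Agent.Y316.PC
open scoped ENNReal NNReal

lemma gen_nonneg {G Y : Type} [Group G] [TopologicalSpace Y] [MulAction G Y] {ρ : Y → Y → ℝ}
    (h : IsGenerating G ρ) (x y : Y) : 0 ≤ ρ x y := by
  have h1 := h.triangle x y x
  rw [h.self, h.symm y x] at h1
  linarith

/-- the topological part -/
lemma top1 {G : Type} [Group G] [TopologicalSpace G] [IsTopologicalGroup G]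
    {X : Type} [TopologicalSpace X] [PolishSpace X] [MeasurableSpace X] [BorelSpace X]
    [MulAction G X] [ContinuousSMul G X] (μ : ProbabilityMeasure X) (ρ ρ' : X → X → ℝ)
    (hρ : IsGenerating G ρ) (h0 : ∀ x, ρ' x x = 0)
    (hc : Continuous (fun z : X × X => ρ' z.1 z.2)) (U : Set G) (hU : IsCompact (closure U))
    (δ : ℝ) (hδ : 0 < δ) (η : ℝ≥0∞) (hη : 0 < η) :
    ∃ (O0 : Set X) (E : Finset G) (δ1 : ℝ), IsOpen O0 ∧ 0 < δ1 ∧ (μ : Measure X) O0ᶜ ≤ η ∧
      ∀ g ∈ closure U, ∀ x ∈ O0, ∀ x' ∈ O0, ρ' x' (g • x) < δ ∨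
        ∃ h ∈ E, δ1 < ρ (h • x') (h • g • x) := by
  classical
  obtain ⟨C0, hC0, hm⟩ := isTightMeasureSet_iff_exists_isCompact_measure_compl_le.1
    (isTightMeasureSet_singleton (μ := (μ : Measure X))) η hη
  have hm' := hm _ rfl
  set C : Set X := C0 ∪ (fun z : G × X => z.1 • z.2) '' (closure U ×ˢ C0) with hC
  have hCc : IsCompact C := hC0.union ((hU.prod hC0).image continuous_smul)
  let W : Finset G × ℕ → Set (X × X) := fun i => {z | ρ' z.1 z.2 < δ} ∪
    ⋃ h ∈ i.1, {z | (1 : ℝ) / ((i.2 : ℝ) + 1) < ρ (h • z.1) (h • z.2)}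
  have hWo : ∀ i, IsOpen (W i) := by
    intro i
    refine (isOpen_lt hc continuous_const).union (isOpen_biUnion fun h _ => ?_)
    refine isOpen_lt continuous_const ?_
    exact hρ.continuous.comp ((continuous_fst.const_smul h).prodMk (continuous_snd.const_smul h))
  have hWc : C ×ˢ C ⊆ ⋃ i, W i := by
    rintro ⟨x, y⟩ _
    by_cases hxy : x = y
    · subst hxy
      refine mem_iUnion.2 ⟨(∅, 0), Or.inl ?_⟩
      show ρ' x x < δ
      rw [h0]
      exact hδ
    · obtain ⟨g, hg⟩ := hρ.generating x y hxy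
      obtain ⟨n, hn⟩ := exists_nat_one_div_lt hg
      refine mem_iUnion.2 ⟨({g}, n), Or.inr (mem_biUnion (Finset.mem_singleton_self g) hn)⟩
  have hWd : Directed (· ⊆ ·) W := by
    intro i j
    refine ⟨(i.1 ∪ j.1, max i.2 j.2), ?_, ?_⟩
    · rintro z (hz | hz)
      · exact Or.inl hz
      · obtain ⟨h, hh, hz⟩ := mem_iUnion₂.1 hz
        refine Or.inr (mem_iUnion₂.2 ⟨h, Finset.mem_union_left _ hh, ?_⟩)
        refine lt_of_le_of_lt ?_ (mem_ofPred.1 hz)
        refine one_div_le_one_div_of_le (by positivity) ?_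
        have : (i.2 : ℝ) ≤ ((max i.2 j.2 : ℕ) : ℝ) := by exact_mod_cast le_max_left _ _
        show (i.2 : ℝ) + 1 ≤ ((max i.2 j.2 : ℕ) : ℝ) + 1
        linarith
    · rintro z (hz | hz)
      · exact Or.inl hz
      · obtain ⟨h, hh, hz⟩ := mem_iUnion₂.1 hz
        refine Or.inr (mem_iUnion₂.2 ⟨h, Finset.mem_union_right _ hh, ?_⟩)
        refine lt_of_le_of_lt ?_ (mem_ofPred.1 hz)
        refine one_div_le_one_div_of_le (by positivity) ?_
        have : (j.2 : ℝ) ≤ ((max i.2 j.2 : ℕ) : ℝ) := by exact_mod_cast le_max_right _ _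
        show (j.2 : ℝ) + 1 ≤ ((max i.2 j.2 : ℕ) : ℝ) + 1
        linarith
  obtain ⟨⟨E, n⟩, hEn⟩ := (hCc.prod hCc).elim_directed_cover W hWo hWc hWd
  obtain ⟨u, w, hu, hw, hCu, hCw, huw⟩ := generalized_tube_lemma hCc hCc (hWo (E, n)) hEn
  have hOC : IsOpen (u ∩ w) := hu.inter hw
  obtain ⟨u1, v1, hu1, hv1, hUu, hCv, huv⟩ := generalized_tube_lemma hU hC0
    (n := (fun z : G × X => z.1 • z.2) ⁻¹' (u ∩ w)) (hOC.preimage continuous_smul) (by
      intro z hz
      have : z.1 • z.2 ∈ C := Or.inr ⟨z, hz, rfl⟩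
      exact ⟨hCu this, hCw this⟩)
  refine ⟨v1 ∩ (u ∩ w), E, 1 / ((n : ℝ) + 1), hv1.inter hOC, by positivity, ?_, ?_⟩
  · refine (measure_mono (compl_subset_compl.2 ?_)).trans hm'
    intro x hx
    exact ⟨hCv hx, hCu (Or.inl hx), hCw (Or.inl hx)⟩
  · intro g hg x hx x' hx'
    have h1 : g • x ∈ u ∩ w := huv (a := (g, x)) ⟨hUu hg, hx.1⟩
    have h2 : (x', g • x) ∈ W (E, n) := huw ⟨hx'.2.1, h1.2⟩
    rcases h2 with h2 | h2
    · exact Or.inl h2
    · obtain ⟨h, hh, h3⟩ := mem_iUnion₂.1 h2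
      exact Or.inr ⟨h, hh, h3⟩

lemma open1 {X : Type} [TopologicalSpace X] [PolishSpace X] [MeasurableSpace X] [BorelSpace X]
    (F : Set X) (hF : IsClosed F) (η : ℝ≥0∞) :
    IsOpen {κ : ProbabilityMeasure X | (κ : Measure X) F < η} := by
  let _ := TopologicalSpace.upgradeIsCompletelyMetrizable X
  rw [isOpen_iff_mem_nhds]
  intro κ hκ
  have h1 := ProbabilityMeasure.limsup_measure_closed_le_of_tendsto
    (tendsto_id (x := 𝓝 κ)) hF
  exact eventually_lt_of_limsup_lt (lt_of_le_of_lt h1 hκ)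


lemma int0 {M : Type} [MeasurableSpace M] (v : Measure M) [IsFiniteMeasure v] (δ a B : ℝ)
    (F I J : M → ℝ) (hF : Integrable F v) (hI : Integrable I v) (hJ : Integrable J v) :
    Integrable (fun p => δ + a * F p + B * (I p + J p)) v ∧
    ∫ p, (δ + a * F p + B * (I p + J p)) ∂v =
      δ * (v univ).toReal + a * ∫ p, F p ∂v + B * (∫ p, I p ∂v + ∫ p, J p ∂v) := by
  have h1 : Integrable (fun p => δ + a * F p) v := (integrable_const δ).add (hF.const_mul a)
  have h2 : Integrable (fun p => B * (I p + J p)) v := (hI.add hJ).const_mul B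
  refine ⟨h1.add h2, ?_⟩
  rw [integral_add h1 h2, integral_add (integrable_const δ) (hF.const_mul a), integral_const_mul,
    integral_const_mul, integral_add hI hJ, integral_const, smul_eq_mul, mul_comm δ]
  rfl

/-- the integration part -/
lemma int1 {G : Type} [Group G] [TopologicalSpace G]
    {X : Type} [TopologicalSpace X] [PolishSpace X] [MeasurableSpace X] [BorelSpace X]
    [MulAction G X] [ContinuousSMul G X] (ρ ρ' : X → X → ℝ)
    (hρ : IsGenerating G ρ) (h0 : ∀ x y, 0 ≤ ρ' x y) (B : ℝ) (hB0 : 1 ≤ B)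
    (hB : ∀ x y, ρ' x y ≤ B)
    (hc : Continuous (fun z : X × X => ρ' z.1 z.2)) (δ δ1 δ' η : ℝ) (hδ : 0 < δ) (hδ1 : 0 < δ1)
    (hη : 0 ≤ η) (O0 : Set X) (hO : IsOpen O0) (E : Finset G) (g : G)
    (M : Type) [TopologicalSpace M] [MeasurableSpace M] (S : LocalSpace G M) (v : Measure M)
    [IsFiniteMeasure v] (hd : S.dom = univ)
    (hS : ∀ g, MeasurePreserving (S.act g) v v) (φ : M → X) (hφ : Measurable φ)
    (hW : ∀ x ∈ O0, ∀ x' ∈ O0, ρ' x' (g • x) < δ ∨ ∃ h ∈ E, δ1 < ρ (h • x') (h • g • x))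
    (h1 : ∀ h ∈ E, ∫ p, ρ (φ (S.act h p)) (h • φ p) ∂v ≤ δ' * (v univ).toReal)
    (h2 : ∀ h ∈ E, ∫ p, ρ (φ (S.act (h * g) p)) ((h * g) • φ p) ∂v ≤ δ' * (v univ).toReal)
    (h3 : (v (φ ⁻¹' O0ᶜ)).toReal ≤ η * (v univ).toReal) :
    ∫ p, ρ' (φ (S.act g p)) (g • φ p) ∂v ≤
      (δ + 2 * B * E.card * δ' / δ1 + 2 * B * η) * (v univ).toReal := by
  classical
  have hBp : 0 < B := by linarith
  have hρn := gen_nonneg hρ
  obtain ⟨C, hC⟩ := hρ.bounded
  -- measurability
  have hact : ∀ h : G, Measurable (fun x : X => h • x) := fun h =>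
    (continuous_const_smul h).measurable
  have hSm : ∀ h : G, Measurable (S.act h) := fun h => (hS h).measurable
  have hmρ : ∀ a b : M → X, Measurable a → Measurable b → Measurable (fun p => ρ (a p) (b p)) :=
    fun a b ha hb => hρ.continuous.measurable.comp (ha.prodMk hb)
  have hmρ' : ∀ a b : M → X, Measurable a → Measurable b → Measurable (fun p => ρ' (a p) (b p)) :=
    fun a b ha hb => hc.measurable.comp (ha.prodMk hb)
  have hiρ : ∀ a b : M → X, Measurable a → Measurable b →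
      Integrable (fun p => ρ (a p) (b p)) v := by
    intro a b ha hb
    refine Integrable.of_bound (hmρ a b ha hb).aestronglyMeasurable C (Eventually.of_forall ?_)
    intro p
    rw [Real.norm_eq_abs, abs_of_nonneg (hρn _ _)]
    exact hC _ _
  have hiρ' : ∀ a b : M → X, Measurable a → Measurable b →
      Integrable (fun p => ρ' (a p) (b p)) v := by
    intro a b ha hb
    refine Integrable.of_bound (hmρ' a b ha hb).aestronglyMeasurable B (Eventually.of_forall ?_)
    intro p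
    rw [Real.norm_eq_abs, abs_of_nonneg (h0 _ _)]
    exact hB _ _
  -- the two bad sets
  set Z : Set M := φ ⁻¹' O0ᶜ with hZ
  have hZm : MeasurableSet Z := hφ hO.measurableSet.compl
  set Z' : Set M := S.act g ⁻¹' Z with hZ'
  have hZm' : MeasurableSet Z' := hSm g hZm
  have hZv : v Z' = v Z := (hS g).measure_preimage hZm.nullMeasurableSet
  -- the pointwise bound
  have hpt : ∀ p, ρ' (φ (S.act g p)) (g • φ p) ≤ δ + (B / δ1) * ∑ h ∈ E,
      (ρ (φ (S.act h (S.act g p))) (h • φ (S.act g p)) +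
        ρ (φ (S.act (h * g) p)) ((h * g) • φ p)) +
      B * (Z.indicator (fun _ => (1 : ℝ)) p + Z'.indicator (fun _ => (1 : ℝ)) p) := by
    intro p
    have hs0 : 0 ≤ (B / δ1) * ∑ h ∈ E,
      (ρ (φ (S.act h (S.act g p))) (h • φ (S.act g p)) +
        ρ (φ (S.act (h * g) p)) ((h * g) • φ p)) :=
      mul_nonneg (by positivity) (Finset.sum_nonneg fun h _ => add_nonneg (hρn _ _) (hρn _ _))
    have hi1 : 0 ≤ Z.indicator (fun _ => (1 : ℝ)) p := indicator_nonneg (fun _ _ => zero_le_one) _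
    have hi2 : 0 ≤ Z'.indicator (fun _ => (1 : ℝ)) p := indicator_nonneg (fun _ _ => zero_le_one) _
    by_cases hz : p ∈ Z
    · rw [indicator_of_mem hz]
      have := hB (φ (S.act g p)) (g • φ p)
      have := mul_nonneg hBp.le hi2
      nlinarith
    by_cases hz' : p ∈ Z'
    · rw [indicator_of_mem hz']
      have := hB (φ (S.act g p)) (g • φ p)
      have := mul_nonneg hBp.le hi1
      nlinarith
    have hx : φ p ∈ O0 := by
      by_contra h
      exact hz h
    have hx' : φ (S.act g p) ∈ O0 := by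
      by_contra h
      exact hz' h
    have hlast : 0 ≤ B * (Z.indicator (fun _ => (1 : ℝ)) p + Z'.indicator (fun _ => (1 : ℝ)) p) :=
      mul_nonneg hBp.le (add_nonneg hi1 hi2)
    rcases hW _ hx _ hx' with h | ⟨h, hh, hlt⟩
    · linarith
    · have e1 : ρ (h • φ (S.act g p)) (h • g • φ p) ≤
          ρ (φ (S.act h (S.act g p))) (h • φ (S.act g p)) +
            ρ (φ (S.act (h * g) p)) ((h * g) • φ p) := by
        have e2 : S.act (h * g) p = S.act h (S.act g p) :=
          S.mul_act h g p (by rw [hd]; trivial) (by rw [hd]; trivial) (by rw [hd]; trivial)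
        have e3 := hρ.triangle (h • φ (S.act g p)) (φ (S.act h (S.act g p))) (h • g • φ p)
        rw [hρ.symm (h • φ (S.act g p)) (φ (S.act h (S.act g p)))] at e3
        rw [e2, mul_smul]
        exact e3
      have e4 : δ1 ≤ ∑ h ∈ E, (ρ (φ (S.act h (S.act g p))) (h • φ (S.act g p)) +
          ρ (φ (S.act (h * g) p)) ((h * g) • φ p)) :=
        (hlt.le.trans e1).trans (Finset.single_le_sum
          (f := fun h => ρ (φ (S.act h (S.act g p))) (h • φ (S.act g p)) +
            ρ (φ (S.act (h * g) p)) ((h * g) • φ p))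
          (fun h _ => add_nonneg (hρn _ _) (hρn _ _)) hh)
      have e5 : B ≤ (B / δ1) * ∑ h ∈ E, (ρ (φ (S.act h (S.act g p))) (h • φ (S.act g p)) +
          ρ (φ (S.act (h * g) p)) ((h * g) • φ p)) := by
        calc B = (B / δ1) * δ1 := by field_simp
          _ ≤ _ := mul_le_mul_of_nonneg_left e4 (by positivity)
      have := hB (φ (S.act g p)) (g • φ p)
      linarith
  -- integrability
  have hφg : Measurable (fun p => φ (S.act g p)) := hφ.comp (hSm g)
  have hI1 : ∀ h : G, Integrable (fun p => ρ (φ (S.act h (S.act g p))) (h • φ (S.act g p))) v :=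
    fun h => hiρ _ _ (hφ.comp ((hSm h).comp (hSm g))) ((hact h).comp hφg)
  have hI2 : ∀ h : G, Integrable (fun p => ρ (φ (S.act (h * g) p)) ((h * g) • φ p)) v :=
    fun h => hiρ _ _ (hφ.comp (hSm (h * g))) ((hact (h * g)).comp hφ)
  have hIs : Integrable (fun p => ∑ h ∈ E,
      (ρ (φ (S.act h (S.act g p))) (h • φ (S.act g p)) +
        ρ (φ (S.act (h * g) p)) ((h * g) • φ p))) v :=
    integrable_finsetSum _ fun h _ => (hI1 h).add (hI2 h)
  have hIz : Integrable (Z.indicator (fun _ => (1 : ℝ))) v :=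
    (integrable_const (1 : ℝ)).indicator hZm
  have hIz' : Integrable (Z'.indicator (fun _ => (1 : ℝ))) v :=
    (integrable_const (1 : ℝ)).indicator hZm'
  have hI12 : ∀ h : G, Integrable (fun p => ρ (φ (S.act h (S.act g p))) (h • φ (S.act g p)) +
        ρ (φ (S.act (h * g) p)) ((h * g) • φ p)) v := fun h => (hI1 h).add (hI2 h)
  have hbig := int0 v δ (B / δ1) B _ _ _ hIs hIz hIz'
  have hle := integral_mono (hiρ' _ _ hφg ((hact g).comp hφ)) hbig.1 hpt
  refine hle.trans ?_
  rw [hbig.2, integral_indicator_const _ hZm, integral_indicator_const _ hZm',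
    integral_finsetSum _ (fun h _ => hI12 h)]
  have hs : ∑ h ∈ E, ∫ p, (ρ (φ (S.act h (S.act g p))) (h • φ (S.act g p)) +
        ρ (φ (S.act (h * g) p)) ((h * g) • φ p)) ∂v ≤
        E.card * (2 * (δ' * (v univ).toReal)) := by
    rw [← nsmul_eq_mul, ← Finset.sum_const]
    refine Finset.sum_le_sum fun h hh => ?_
    rw [integral_add (hI1 h) (hI2 h)]
    have e6 : ∫ p, ρ (φ (S.act h (S.act g p))) (h • φ (S.act g p)) ∂v =
        ∫ q, ρ (φ (S.act h q)) (h • φ q) ∂v := by
      have e7 := integral_map (μ := v) (hSm g).aemeasurable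
        (f := fun q => ρ (φ (S.act h q)) (h • φ q))
        ((hmρ _ _ (hφ.comp (hSm h)) ((hact h).comp hφ)).aestronglyMeasurable)
      rw [(hS g).map_eq] at e7
      exact e7.symm
    rw [e6]
    have := h1 h hh
    have := h2 h hh
    linarith
  have hzz : v.real Z = (v Z).toReal := rfl
  have hzz' : v.real Z' = (v Z).toReal := by
    show (v Z').toReal = _
    rw [hZv]
  rw [hzz, hzz']
  simp only [smul_eq_mul, mul_one]
  have e8 : (B / δ1) * (∑ h ∈ E, ∫ p, (ρ (φ (S.act h (S.act g p))) (h • φ (S.act g p)) +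
        ρ (φ (S.act (h * g) p)) ((h * g) • φ p)) ∂v) ≤ (B / δ1) *
        (E.card * (2 * (δ' * (v univ).toReal))) :=
    mul_le_mul_of_nonneg_left hs (by positivity)
  have e9 : B * ((v Z).toReal + (v Z).toReal) ≤ B * (2 * (η * (v univ).toReal)) :=
    mul_le_mul_of_nonneg_left (by linarith) hBp.le
  have e10 : (B / δ1) * (E.card * (2 * (δ' * (v univ).toReal))) =
      2 * B * E.card * δ' / δ1 * (v univ).toReal := by
    field_simp
  rw [e10] at e8
  nlinarith


/-- **PSD**: approximate equivariance does not depend on the pseudometric -/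
theorem psd : Pool.Agent.Y316.EV.S_PSD := by
  intro G _ _ _ _ X _ _ _ _ _ _ μ ρ ρ' hρ h0 hn ⟨B0, hB0⟩ hc U hU δ hδ
  classical
  set B : ℝ := max B0 1 with hBdef
  have hB1 : 1 ≤ B := le_max_right _ _
  have hBp : 0 < B := by linarith
  have hB : ∀ x y, ρ' x y ≤ B := fun x y => (hB0 x y).trans (le_max_left _ _)
  obtain ⟨O0, E, δ1, hO, hδ1, hm, hW⟩ := top1 μ ρ ρ' hρ h0 hc U hU (δ / 4) (by positivity)
    (ENNReal.ofReal (δ / (32 * B))) (ENNReal.ofReal_pos.2 (by positivity))
  have hEc : IsCompact (E : Set G) := E.finite_toSet.isCompact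
  have hK : IsCompact ((E : Set G) ∪ (fun z : G × G => z.1 * z.2) '' ((E : Set G) ×ˢ closure U)) :=
    hEc.union ((hEc.prod hU).image continuous_mul)
  obtain ⟨U', hU'o, hKU, hU'c⟩ := exists_isOpen_superset_and_isCompact_closure hK
  refine ⟨U', δ * δ1 / (16 * B * ((E.card : ℝ) + 1)), {κ | (κ : Measure X) O0ᶜ <
    ENNReal.ofReal (δ / (16 * B))}, hU'o, hU'c, by positivity, open1 _ hO.isClosed_compl _, ?_, ?_⟩
  · refine lt_of_le_of_lt hm ((ENNReal.ofReal_lt_ofReal_iff (by positivity)).2 ?_)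
    exact div_lt_div_of_pos_left hδ (by positivity) (by linarith)
  · intro M _ _ S v _ hv0 hd hS φ hφ g hg
    obtain ⟨hφm, hφe, κ, hκ, hκv⟩ := hφ
    have hNne : (v univ) ≠ ⊤ := measure_ne_top v _
    have hN : 0 < (v univ).toReal := ENNReal.toReal_pos hv0 hNne
    have hset : ∀ h : G, {p : M | (h, p) ∈ S.dom} = univ := by
      intro h
      rw [hd]
      exact eq_univ_of_forall fun _ => mem_univ _
    have hE : ∀ h ∈ U', ∫ p, ρ (φ (S.act h p)) (h • φ p) ∂v ≤
        δ * δ1 / (16 * B * ((E.card : ℝ) + 1)) * (v univ).toReal := by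
      intro h hh
      have h2 := hφe h hh
      rw [hset, Measure.restrict_univ, div_lt_iff₀ hN] at h2
      exact h2.le
    have h3 : (v (φ ⁻¹' O0ᶜ)).toReal ≤ δ / (16 * B) * (v univ).toReal := by
      have hκ' : (κ : Measure X) O0ᶜ < ENNReal.ofReal (δ / (16 * B)) := hκ
      rw [hκv, Measure.smul_apply, Measure.map_apply hφm hO.measurableSet.compl,
        smul_eq_mul, mul_comm, ← div_eq_mul_inv,
        ENNReal.div_lt_iff (Or.inl hv0) (Or.inl hNne)] at hκ'
      have h4 := ENNReal.toReal_mono (ENNReal.mul_ne_top ENNReal.ofReal_ne_top hNne) hκ'.le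
      rw [ENNReal.toReal_mul, ENNReal.toReal_ofReal (by positivity)] at h4
      exact h4
    have hg' : g ∈ closure U := subset_closure hg
    have key := int1 ρ ρ' hρ hn B hB1 hB hc (δ / 4) δ1 (δ * δ1 / (16 * B * ((E.card : ℝ) + 1)))
      (δ / (16 * B)) (by positivity) hδ1 (by positivity) O0 hO E g M S v hd hS φ hφm
      (hW g hg') (fun h hh => hE h (hKU (Or.inl hh)))
      (fun h hh => hE (h * g) (hKU (Or.inr ⟨(h, g), ⟨hh, hg'⟩, rfl⟩))) h3
    rw [div_lt_iff₀ hN]
    refine lt_of_le_of_lt key (mul_lt_mul_of_pos_right ?_ hN)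
    have e1 : 2 * B * (E.card : ℝ) * (δ * δ1 / (16 * B * ((E.card : ℝ) + 1))) / δ1 ≤ δ / 8 := by
      have hc0 : (0 : ℝ) ≤ E.card := Nat.cast_nonneg _
      rw [div_le_iff₀ hδ1, mul_div_assoc', div_le_iff₀ (by positivity)]
      have : 0 ≤ B * δ * δ1 := by positivity
      nlinarith
    have e2 : 2 * B * (δ / (16 * B)) = δ / 8 := by
      field_simp
      norm_num
    linarith

end Pool.Agent.Y688.EV
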